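import Pool.Agent.Run7.h621.LA.Final

/-!
MP_c7af3c_ag, Q1: for special complete intersections in an arbitrary projective variety,
arithmetically hyperbolic is the same as groupless, and both say that there is no line.

Let `K` be an algebraically closed field of characteristic `0`, such as the complex numbers, and let
`k` be a field contained in `K`, such as the rational numbers, with algebraic closure `k'` in `K`.
Let `V` be a closed subset of projective space of dimension `n`, defined over `k'`, of dimension at
most `m`. For `a` in a finite set `A` let `H_a` be a form of degree `d_a` over `K`, not `0`. The
forms are supposed to satisfy at most `s` independent algebraic conditions over `k`: the ratios of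
the coefficients of the `H_a` generate a field of transcendence degree at least `N - s` over `k`,
where `N` is the sum of the `binom (d_a + n) n - 1`, the dimension of the space of parameters. The
conditions can be of any kind, and nothing is supposed on the singularities. Let `X` be the part of
`V` where all `H_a` vanish.

Let `q` be `0`, or such that `|A| + 2 q ≤ s`, `|A| + 4 q ≤ s + 3` and `s ≤ N`, and suppose that
`2 m + s + 2 ≤ ∑ (d_a + 1) + q`. Then the following are equivalent:

(a) `X` contains no line;
(b) for every finite set `T` the set of the points of `X` with coordinates in the field generated by
    `T` over `k'` is finite;
(c) all closed subvarieties of `X` of positive dimension are of general type;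
(d) for all nonconstant maps from smooth projective curves of genus `g` to `X` the degree is at most
    `(2 g - 2) / c`, where `c = ∑ (d_a + 1) + q - 2 m - s`;
(e) all morphisms from the multiplicative group to `X` are constant.

In any case `X` contains at most one line, and for every finite set `T` only finitely many points of
`X` outside of this line have coordinates in the field generated by `T` over `k'`.

Every finitely generated ring, and every finitely generated field, in `K` is contained in the field
generated by some `T` over `k'`, so (b) implies that `X` is arithmetically hyperbolic; and (c)
implies that it is groupless, because a nonconstant morphism from an abelian variety has an image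
that is not of general type. If there is a line, then `X` is not groupless, because the line is the
image of an elliptic curve, and not arithmetically hyperbolic. So the equivalence of Q1 holds for
all these `X`, in both directions, with an explicit condition for both properties.

For example, let `V` be the whole space, and `X` a hypersurface of degree `d`. The condition is
`2 n + s + 1 ≤ d + q`. The hypersurfaces that contain some line satisfy `d + 3 - 2 n` conditions, so
the theorem is about hypersurfaces with and without lines if `d ≥ 2 n + 11`: for `q = 4` it is about
all the hypersurfaces that satisfy at most `d + 3 - 2 n` conditions.

`peqs V H`: the equations of `X`; `pointsOver k E T`: the points with homogeneous coordinates in the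
field generated by `T` over `k'` at which the forms in `E` vanish; `onLines E`: the points on the
lines on which they vanish; `LineIn E p r`: the span of `p` and `r` is such a line.
-/

set_option autoImplicit false

namespace Pool.Agent.Results.MP_c7af3c_ag.HyperbolicIffNoLine

open MvPolynomial FF Pool.Agent.W602.GT Pool.Agent.TH145.MG
open Pool.Agent.Run7.h621.LG Pool.Agent.Run7.h621.LA

theorem result {k K : Type} [Field k] [Field K] [IsAlgClosed K] [CharZero K] [Algebra k K]
    {n m s q : ℕ}
    -- a closed subset of projective space, of dimension at most `m`
    (V : Set (MvPolynomial (Fin (n + 1)) (algebraicClosure k K)))
    (hVh : ∀ f ∈ V, ∃ e, f.IsHomogeneous e) (hV : DimLE (algebraicClosure k K) V m)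
    -- forms of degrees `d a` that satisfy at most `s` independent conditions over `k`
    {A : Type} [Fintype A] (d : A → ℕ) (H : A → MvPolynomial (Fin (n + 1)) K)
    (h : ConditionsLE k H d s) (hq : Small n d s q)
    (hnum : 2 * m + s + 2 ≤ ∑ a, (d a + 1) + q) :
    -- the equivalence
    [NoLine (peqs V H), ∀ T : Finset K, (pointsOver k (peqs V H) T).Finite,
      AllGeneral (peqs V H), CurvesBounded (peqs V H) ((∑ a, ((d a : ℤ) + 1)) + q - 2 * m - s),
      NoGroup (peqs V H)].TFAE ∧
    -- at most one line
    (∀ p r p' r' : Fin (n + 1) → K, LineIn (peqs V H) p r → LineIn (peqs V H) p' r' →
      Submodule.span K (Set.range ![p', r']) = Submodule.span K (Set.range ![p, r])) ∧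
    -- the points outside of the line
    ∀ T : Finset K, (pointsOver k (peqs V H) T \ onLines (peqs V H)).Finite :=
  ⟨equivalence_ar hVh hV h hq hnum rfl, fun _ _ _ _ hl hl' => one_line hV h hq hnum hl hl',
    points' hVh hV h hq hnum⟩

end Pool.Agent.Results.MP_c7af3c_ag.HyperbolicIffNoLine
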