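import Pool.Agent.Run7.h621.MP.StmAr

/-!
MP_c7af3c_ag, Q1: generic and nearly generic complete intersections in closed subsets of products of
projective spaces, among them the resolutions of generic determinantal varieties, are groupless and
arithmetically hyperbolic.

Let `K` be an algebraically closed field of characteristic `0`, such as the complex numbers, and let
`k` be a field contained in `K`, such as the rational numbers, with algebraic closure `k'` in `K`.
Let `V` be a closed subset of a product of projective spaces of dimensions `n_i`, defined over `k'`,
of dimension at most `m`, whose projection to the factor `i` has dimension at most `m_i`. For `a` in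
a finite set `A`, let `F_a` be a member of a linear system over `k'` of forms of degrees `d_{a,i}` in
the coordinates `x_{i,0}, x_{i,1}, ...` of the factor `i`, spanned by the forms `P_{a,j}`, with the
coefficients `t_{a,j}`, and let `N` be the number of the ratios of the `t_{a,j}` to one of them, for
all `a` together: the dimension of the space of parameters. The ratios are supposed to generate a
field of transcendence degree at least `N - s` over `k`. For `s = 0`, this says that they are
algebraically independent: the `F_a` are generic. In general it says that the point of the space of
parameters is not in any closed subset over `k` of codimension more than `s`; the complete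
intersections can be special, and singular.

Let `X` be the complete intersection `F_a = 0`, `a` in `A`, in `V`. We consider points, curves and
subvarieties such that, for some `c` in a set `Z` of choices of an index `c_i` for each factor, no
`x_{i,c_i}` is `0` on them; each of the linear systems is supposed to contain all products of the
monomials `x_{i,c_i} ^ (d_{a,i} - e_i) x_{i,j_i} ^ e_i` over the `i`, for `c` in `Z`. If the linear
systems are complete, `Z` can be the set of all choices, and this is no restriction.

(1) If `m + m_i + s + 2 ≤ ∑_a (d_{a,i} + 1)` for all `i`, then `X` has only finitely many points over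
the field generated over `k'` by any finite subset `T` of `K`.

(2) For all nonconstant maps `f` from a smooth projective curve of genus `g` to `X`,

  `∑_i (∑_a (d_{a,i} + 1) - m - m_i - s) deg_i f ≤ 2 g - 2`,

where `deg_i f` is the degree of the pullback of `O(1)` from the factor `i`.

(3) A closed subvariety of `X` of dimension `w > 0` is of general type if
`m + m_i + s + 2 ≤ ∑_a (d_{a,i} + 1) + w` for all `i` such that its projection to the factor `i` is
not constant.

So let `m + m_i + s + 2 ≤ ∑_a (d_{a,i} + 1)` for all `i`, and let the linear systems be complete. Then
`X` is arithmetically hyperbolic: the sections of a model of `X` over a finitely generated ring `A`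
are points of `X` over its field of fractions, and so points over a field as in (1). And `X` is
groupless: by (2) the degrees of the maps from each curve to `X` are bounded, but the multiplications
by the natural numbers give maps of unbounded degree from a curve in an abelian variety with a
nonconstant map to `X`. So both sides of the equivalence in Q1 are true for `X`, and for each
irreducible component of `X`.

Examples for generic forms (`s = 0`).
* If `V` is the product of the projective spaces, `m` is the sum of the `n_i`, and `m_i = n_i`: this is
  (4). The condition is `n_i + ∑_l n_l + 2 ≤ ∑_a (d_{a,i} + 1)` for all `i`.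
* Let `M` be a matrix with `p` rows and `r + 1` columns of forms in `n + 1` variables, generic forms
  of degree `δ_a` in the row `a`. The points `(x, y)` with `M(x) y = 0` are the complete intersection
  of `p` forms of degrees `δ_a`, `1` in the product of projective spaces of dimensions `n` and `r`;
  where the rank of `M(x)` is `r`, its projection to the determinantal variety where the rank is at
  most `r` is an isomorphism. The condition is `2 n + r + 2 ≤ ∑_a δ_a + p` and `n + 2 r + 2 ≤ 2 p`.

Here `PointsOver V F Z T` is the set of the points of `X` over `k'(T)`. A curve is given by its
function field `L`, and the map by multihomogeneous coordinates `x` in `L`; `canDeg K L` is `2 g - 2`,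
and `pht K y` is the degree of the map to projective space with the coordinates `y`. In (3), the
subvariety is given by its function field `L`, or a finite extension of it, and its generic point
`x`.
-/

set_option autoImplicit false

namespace Pool.Agent.Results.MP_c7af3c_ag.MultiprojectivePoints

open MvPolynomial FF Pool.Agent.W603.LV Pool.Agent.W603.PV Pool.Agent.W602.GT
  Pool.Agent.Run7.h621.MP.Stm

theorem result {k K : Type} [Field k] [Field K] [IsAlgClosed K] [CharZero K] [Algebra k K]
    {ι : Type} [Fintype ι] [DecidableEq ι] {n : ι → ℕ} {m s : ℕ} {mi : ι → ℕ}
    -- a closed subset of a product of projective spaces, of dimension at most `m`, whose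
    -- projection to the factor `i` has dimension at most `mi i`
    (V : Set (MvPolynomial (Coords n) (algebraicClosure k K))) (hV : SetDim V m mi)
    -- linear systems of forms of degrees `d a i`, which contain the products of the monomials in
    -- `x_{i, c i}` and another coordinate of the factor `i`, for `c ∈ Z`
    {A : Type} [Fintype A] (d : A → ι → ℕ) {J : A → Type} [∀ a, Fintype (J a)]
    (P : ∀ a, J a → MvPolynomial (Coords n) (algebraicClosure k K))
    (hP : ∀ a j, IsForm (P a j) (d a)) (Z : Set (∀ i, Fin (n i + 1)))
    (hZ : ∀ c ∈ Z, ∀ a, HasMonomials (P a) (d a) c)
    -- the coefficients; their ratios generate a field of transcendence degree at least their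
    -- number minus `s`
    (t : ∀ a, J a → K) (j0 : ∀ a, J a) (hgen : CodimLE k t j0 s)
    -- the forms; the equations are `F a = 0`
    (F : A → MvPolynomial (Coords n) K)
    (hF : ∀ a, F a =
      ∑ j, MvPolynomial.C (t a j) * map (algebraMap (algebraicClosure k K) K) (P a j)) :
    -- (1) points over finitely generated fields
    ((∀ i, m + mi i + s + 2 ≤ ∑ a, (d a i + 1)) →
      ∀ T : Finset K, (PointsOver V F Z (T : Set K)).Finite) ∧
    -- (2) the degrees of curves
    (∀ (L : Type) [Field L] [Algebra K L] [IsFF K L] (x : Coords n → L),
      (∃ c ∈ Z, ∀ i, x ⟨i, c i⟩ ≠ 0) → OnPair V F Finset.univ x →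
      (∃ (i : ι) (j l : Fin (n i + 1)), Transcendental K (x ⟨i, j⟩ / x ⟨i, l⟩)) →
      ∑ i, ((∑ a, ((d a i : ℤ) + 1)) - m - mi i - s) * pht K (fun j => x ⟨i, j⟩) ≤
        canDeg K L) ∧
    -- (3) closed subvarieties of dimension `w > 0`
    (∀ (L : Type) [Field L] [Algebra K L] (w : ℕ) (x : Coords n → L), 0 < w →
      Algebra.trdeg K L = w → (∃ c ∈ Z, ∀ i, x ⟨i, c i⟩ ≠ 0) →
      Algebra.IsAlgebraic (pointField K x) L → OnPair V F Finset.univ x →
      (∀ i, ConstAt K x i ∨ m + mi i + s + 2 ≤ ∑ a, (d a i + 1) + w) → GeneralType K L w) ∧
    -- (4) products of projective spaces
    SetDim (∅ : Set (MvPolynomial (Coords n) (algebraicClosure k K))) (∑ i, n i) n :=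
  ⟨fun hnum T => finite_points hV hP hZ hgen hF hnum T,
    fun _ _ _ _ _ hx0 hx hnc => proj_degrees hV hP hZ hgen hF hx0 hx hnc,
    fun _ _ _ _ _ hw htr hx0 hxL hx hnum =>
      proj_subvarieties hV hP hZ hgen hF hw htr hx0 hxL hx hnum, setDim_top _ n⟩

end Pool.Agent.Results.MP_c7af3c_ag.MultiprojectivePoints
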