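import Pool.Agent.Run7.h983.X3

set_option autoImplicit false

/-!
# Recursive families of points on projective varieties over arbitrary fields of characteristic zero

`X` is the projective variety in `P^n` over an algebraically closed field `k` of characteristic zero
given by forms `F ∈ FF` of degree at most `d`.  A groupless variety contains no rational curves
(`P^1` is the image of an elliptic curve).  We prove that the following conditions are equivalent.

(1) `X` contains no nonconstant rational curve.

(2) Every P-recursive sequence of points of `X(k)` is periodic from some point on.  (A sequence is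
P-recursive if the homogeneous coordinates satisfy nontrivial linear recurrences with polynomial
coefficients.)

(3) For all finitely generated subrings `A` of `k`, every P-recursive sequence of `A`-valued points of
`X` (given by unimodular vectors over `A`) takes only finitely many values.

(4) For all finitely generated groups `H`, representations `ρ : H → GL_r(k)`, matrices `M` and vectors
`v` such that all `M ρ(h) v` are zero or points of `X`, these are finitely many points.

(5) The same for `H = ℤ`, for example for all sequences of points `x(m)`, `m ∈ ℤ`, whose coordinates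
are polynomials or linear recurrence sequences in `m`.

So in the conjecture of Lang, groupless varieties have the finiteness property of arithmetically
hyperbolic varieties for the points in all these families, over all finitely generated subrings of
arbitrary fields.  The bounds are uniform: for all `n`, `d`, `t`, `r` there are numbers `B` such that,
for all fields `k` of characteristic zero and all `X` without rational curves over an algebraic
closure, the P-recursive sequences of points of order at most `t` have at most `B` values for large `m`,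
and the orbits in (4) have at most `B` points.

Proof of (1) ⇒ (2): the sequence and `X` are defined over a finitely generated field `K`, and `K` is
embedded in `ℂ`.  The difference Galois group of the recurrence gives an orbit of a matrix group on
`X` over a finite extension of `ℂ(m)`, which is finite by the uniform theorem of the starting files
(`uniform_all`).  So the points `x(m)` are algebraic over `K(m)`, with bounded degree, and Hilbert's
irreducibility theorem over the finitely generated field `K` with integral parameters in long intervals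
gives rational functions of `m` on `X`, that is rational curves, which are constant.  The case of number
fields was known in the starting files.
-/

namespace Pool.Agent.Results.MP_c7af3c_ag.RecursiveFamiliesAllFields

open Polynomial Matrix Pool.Agent.Run7.h983

/-- All elements are forms of degree at most `d`. -/
def Forms {k : Type} [Field k] {n : ℕ} (d : ℕ) (FF : Set (MvPolynomial (Fin (n + 1)) k)) : Prop :=
  ∀ F ∈ FF, ∃ m ≤ d, F.IsHomogeneous m

/-- The vector `v` satisfies the equations. -/
def OnX {k : Type} [Field k] {n : ℕ} (FF : Set (MvPolynomial (Fin (n + 1)) k))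
    (v : Fin (n + 1) → k) : Prop :=
  ∀ F ∈ FF, MvPolynomial.eval v F = 0

/-- `W` is an extension field of `k` (by `σ`); all rational curves `q : P^1 → P^n` over `W`, given by
polynomials, which lie on the variety are constant. -/
def NoRationalCurves {k W : Type} [Field k] [Field W] {n : ℕ} (σ : k →+* W)
    (FF : Set (MvPolynomial (Fin (n + 1)) k)) : Prop :=
  ∀ q : Fin (n + 1) → W[X], (∀ F ∈ FF, MvPolynomial.eval₂ (C.comp σ) q F = 0) →
    ∀ i j (a b : W), (q i).eval a * (q j).eval b = (q j).eval a * (q i).eval b

/-- The sequence `s` satisfies a nontrivial linear recurrence with `t + 1` terms and polynomial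
coefficients. -/
def RecOrder {k : Type} [Field k] (t : ℕ) (s : ℕ → k) : Prop :=
  ∃ p : Fin (t + 1) → k[X], p ≠ 0 ∧
    ∀ m : ℕ, ∑ i : Fin (t + 1), (p i).eval (m : k) * s (m + i) = 0

/-- All coordinates of the sequence of vectors `x` are P-recursive. -/
def Recursive {k : Type} [Field k] {n : ℕ} (x : ℕ → Fin (n + 1) → k) : Prop :=
  ∀ j, ∃ t, RecOrder t fun m => x m j

/-- The vectors `x(h)` are, up to factors, at most `B` vectors. -/
def AtMost {k H : Type} [Field k] {n : ℕ} (B : ℕ) (x : H → Fin (n + 1) → k) : Prop :=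
  ∃ c : Fin B → Fin (n + 1) → k, ∀ h, ∃ i, ∃ s : k, x h = s • c i

/-- The sequence of points is periodic from some point on. -/
def EventuallyPeriodic {k : Type} [Field k] {n : ℕ} (x : ℕ → Fin (n + 1) → k) : Prop :=
  ∃ N T : ℕ, 1 ≤ T ∧ ∀ m ≥ N, ∃ s : k, s ≠ 0 ∧ x (m + T) = s • x m

/-- `v` is a unimodular vector over the subring `A`. -/
def Unimodular {k : Type} [Field k] {n : ℕ} (A : Subring k) (v : Fin (n + 1) → k) : Prop :=
  (∀ j, v j ∈ A) ∧ ∃ b : Fin (n + 1) → k, (∀ j, b j ∈ A) ∧ ∑ j, b j * v j = 1

/-- The vector `M ρ(h) v`. -/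
def orbit {k H : Type} [Field k] [Group H] {n r : ℕ} (ρ : H →* GL (Fin r) k)
    (M : Matrix (Fin (n + 1)) (Fin r) k) (v : Fin r → k) (h : H) : Fin (n + 1) → k :=
  M.mulVec ((ρ h : Matrix (Fin r) (Fin r) k).mulVec v)

theorem periodic_of {k : Type} [Field k] {n B : ℕ} (x : ℕ → Fin (n + 1) → k)
    (c : Fin B → Fin (n + 1) → k) {T : ℕ} (hT : 1 ≤ T) (hne : ∀ m, x m ≠ 0)
    (h : ∀ a : ℕ, ∃ i, ∃ N : ℕ, ∀ m ≥ N, m % T = a % T → ∃ s : k, x m = s • c i) :
    ∃ N : ℕ, (∀ m ≥ N, ∃ s : k, s ≠ 0 ∧ x (m + T) = s • x m) ∧
      ∀ m ≥ N, ∃ i, ∃ s : k, x m = s • c i := by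
  classical
  choose i N hN using h
  have hs : ∀ a m, N a ≤ m → m % T = a % T → ∃ s : k, s ≠ 0 ∧ x m = s • c (i a) := by
    intro a m hm hma
    obtain ⟨s, hs⟩ := hN a m hm hma
    refine ⟨s, fun h0 => hne m ?_, hs⟩
    rw [hs, h0, zero_smul]
  have hle : ∀ m, (Finset.range T).sup N ≤ m → N (m % T) ≤ m := fun m hm =>
    le_trans (Finset.le_sup (f := N) (Finset.mem_range.2 (Nat.mod_lt _ (by omega)))) hm
  refine ⟨(Finset.range T).sup N, fun m hm => ?_, fun m hm => ?_⟩
  · obtain ⟨s, hs0, hs1⟩ := hs (m % T) m (hle m hm) (by rw [Nat.mod_mod])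
    obtain ⟨s', hs0', hs1'⟩ := hs (m % T) (m + T) (le_trans (hle m hm) (by omega)) (by
      rw [Nat.mod_mod, Nat.add_mod_right])
    refine ⟨s' / s, div_ne_zero hs0' hs0, ?_⟩
    rw [hs1', hs1, smul_smul, div_mul_cancel₀ _ hs0]
  · obtain ⟨s, -, hs1⟩ := hs (m % T) m (hle m hm) (by rw [Nat.mod_mod])
    exact ⟨_, s, hs1⟩

/-- **Theorem.** The uniform bounds, and the equivalence of the five conditions. -/
theorem result :
    (∀ n d t : ℕ, ∃ B : ℕ, ∀ (k : Type) [Field k] [CharZero k]
      (FF : Set (MvPolynomial (Fin (n + 1)) k)), Forms d FF →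
      NoRationalCurves (algebraMap k (AlgebraicClosure k)) FF →
      ∀ x : ℕ → Fin (n + 1) → k, (∀ j, RecOrder t fun m => x m j) → (∀ m, x m ≠ 0) →
      (∃ N : ℕ, ∀ m ≥ N, OnX FF (x m)) →
      EventuallyPeriodic x ∧ ∃ N : ℕ, AtMost B fun m : ℕ => x (N + m)) ∧
    (∀ n d r : ℕ, ∃ B : ℕ, ∀ (k : Type) [Field k] [CharZero k]
      (FF : Set (MvPolynomial (Fin (n + 1)) k)), Forms d FF →
      NoRationalCurves (algebraMap k (AlgebraicClosure k)) FF →
      ∀ (H : Type) [Group H] [Group.FG H] (ρ : H →* GL (Fin r) k)
        (M : Matrix (Fin (n + 1)) (Fin r) k) (v : Fin r → k),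
      (∀ h, OnX FF (orbit ρ M v h)) → AtMost B (orbit ρ M v)) ∧
    (∀ (k : Type) [Field k] [CharZero k] [IsAlgClosed k] (n d : ℕ)
      (FF : Set (MvPolynomial (Fin (n + 1)) k)), Forms d FF →
      List.TFAE [
        NoRationalCurves (RingHom.id k) FF,
        ∀ x : ℕ → Fin (n + 1) → k, Recursive x → (∀ m, x m ≠ 0) → (∀ m, OnX FF (x m)) →
          EventuallyPeriodic x,
        ∀ (S : Finset k) (x : ℕ → Fin (n + 1) → k), Recursive x →
          (∀ m, Unimodular (Subring.closure (S : Set k)) (x m)) → (∀ m, OnX FF (x m)) →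
          ∃ B : ℕ, AtMost B x,
        ∀ (H : Type) [Group H] [Group.FG H] (r : ℕ) (ρ : H →* GL (Fin r) k)
          (M : Matrix (Fin (n + 1)) (Fin r) k) (v : Fin r → k),
          (∀ h, OnX FF (orbit ρ M v h)) → ∃ B : ℕ, AtMost B (orbit ρ M v),
        ∀ (r : ℕ) (ρ : Multiplicative ℤ →* GL (Fin r) k)
          (M : Matrix (Fin (n + 1)) (Fin r) k) (v : Fin r → k),
          (∀ h, OnX FF (orbit ρ M v h)) → ∃ B : ℕ, AtMost B (orbit ρ M v)]) := by
  have hcur : ∀ (k W : Type) [Field k] [Field W] (n : ℕ) (σ : k →+* W)
      (FF : Set (MvPolynomial (Fin (n + 1)) k)), NoRationalCurves σ FF → CurOff σ FF {1} := by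
    intro k W _ _ n σ FF h q hq _
    exact h q hq
  refine ⟨fun n d t => ?_, fun n d r => ?_, fun k _ _ _ n d FF hFF => ?_⟩
  · obtain ⟨B, hB⟩ := seq_any n d t
    refine ⟨B, fun k _ _ FF hFF hno x hx hne hX => ?_⟩
    obtain ⟨c, T, hT, h⟩ := hB k FF hFF (AlgebraicClosure k) _ (hcur _ _ _ _ _ hno) x hx hX
    obtain ⟨N, h1, h2⟩ := periodic_of x c hT hne h
    exact ⟨⟨N, T, hT, h1⟩, N, c, fun m => h2 (N + m) (by omega)⟩
  · obtain ⟨B, hB⟩ := orb_any n d r
    refine ⟨B, fun k _ _ FF hFF hno H _ _ ρ M v hX => ?_⟩
    exact hB k FF hFF (AlgebraicClosure k) _ (hcur _ _ _ _ _ hno) H ρ M v hX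
  · have hcoef : ∀ (q : Fin (n + 1) → k[X]) (F : MvPolynomial (Fin (n + 1)) k),
        MvPolynomial.eval₂ (C.comp (RingHom.id k)) q F = MvPolynomial.aeval q F := by
      intro q F
      rw [RingHom.comp_id]
      rfl
    tfae_have 1 → 2 := by
      intro hno x hx hne hX
      choose t ht using hx
      obtain ⟨B, hB⟩ := seq_any n d (Finset.univ.sup t)
      obtain ⟨c, T, hT, h⟩ := hB k FF hFF k (RingHom.id k) (hcur _ _ _ _ _ hno) x
        (fun j => Pool.Agent.N419.HU.rec_pad (Finset.le_sup (Finset.mem_univ j))
          (fun m => x m j) (ht j)) ⟨0, fun m _ => hX m⟩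
      obtain ⟨N, h1, -⟩ := periodic_of x c hT hne h
      exact ⟨N, T, hT, h1⟩
    tfae_have 2 → 3 := by
      intro h S x hx hu hX
      have hne : ∀ m, x m ≠ 0 := by
        intro m h0
        obtain ⟨-, b, -, hb⟩ := hu m
        rw [h0] at hb
        simp at hb
      obtain ⟨N, T, hT, hper⟩ := h x hx hne hX
      refine ⟨N + T, fun i => x i, fun m => ?_⟩
      induction m using Nat.strong_induction_on with
      | _ m ih =>
        by_cases hm : m < N + T
        · exact ⟨⟨m, hm⟩, 1, by rw [one_smul]⟩
        · obtain ⟨i, s, hs⟩ := ih (m - T) (by omega)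
          obtain ⟨s', -, hs'⟩ := hper (m - T) (by omega)
          rw [Nat.sub_add_cancel (by omega)] at hs'
          exact ⟨i, s' * s, by rw [hs', hs, smul_smul]⟩
    tfae_have 3 → 1 := by
      intro h q hq
      refine no_of_int FF (fun F hF => ?_) ?_ q (fun F hF => ?_)
      · obtain ⟨m, -, hm⟩ := hFF F hF
        exact ⟨m, hm⟩
      · intro S x hx hS hb hX
        exact h S x hx (fun m => ⟨hS m, hb m⟩) hX
      · rw [← hcoef]
        exact hq F hF
    tfae_have 1 → 4 := by
      intro hno H _ _ r ρ M v hX
      obtain ⟨B, hB⟩ := orb_any n d r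
      exact ⟨B, hB k FF hFF k (RingHom.id k) (hcur _ _ _ _ _ hno) H ρ M v hX⟩
    tfae_have 4 → 5 := by
      intro h r ρ M v hX
      exact h (Multiplicative ℤ) r ρ M v hX
    tfae_have 5 → 1 := by
      intro h q hq
      refine no_of_orb FF (fun r ρ M v hX => ?_) q (fun F hF => ?_)
      · exact h r ρ M v hX
      · rw [← hcoef]
        exact hq F hF
    tfae_finish

end Pool.Agent.Results.MP_c7af3c_ag.RecursiveFamiliesAllFields
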