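import Mathlib
import Pool.Agent.Run7.h28.BV.UProj
import Pool.Agent.Run7.h28.BV.UNear
import Pool.Agent.Run7.h28.BV.Spec2

/-!
# Projective varieties without rational curves: rational points above sparse points of all
specialisations

Let `X` be a projective variety over an algebraically closed field `k` of characteristic `0` which
contains no rational curves, for example a groupless variety.  It is defined over a finitely
generated subring `A` of `k`.  Lang's conjecture predicts that `X` is arithmetically hyperbolic if it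
is groupless.  We prove for the rational points over number fields `K` of the specialisations
`X_s`, `s : A → K`, that those of them above sparse points of `ℙ^(n-1)` near unramified points have
bounded height, with a bound which is polynomial in the height of the specialisation, for all `s`
outside one proper closed subset of `Spec A`, although infinitely many of the `X_s`
may contain rational curves.
-/

open Height NumberField IsDedekindDomain

namespace Pool.Agent.Results.MP_c7af3c_ag.SpecialisationsWithoutCurves

/-- The places of a number field, infinite or finite. -/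
abbrev Place (K : Type) [Field K] [NumberField K] : Type :=
  InfinitePlace K ⊕ HeightOneSpectrum (𝓞 K)

/-- The absolute value of a place, as normalised in Mathlib. -/
noncomputable def absv {K : Type} [Field K] [NumberField K] : Place K → AbsoluteValue K ℝ
  | Sum.inl w => w.1
  | Sum.inr v => (FinitePlace.mk v).1

/-- The polynomial `F (x, y_i)` in the coordinates `x_l` and `y_i`. -/
noncomputable def eqn {A : Type} [CommRing A] {n m : ℕ} (F : Polynomial (MvPolynomial (Fin n) A))
    (i : Fin m) : MvPolynomial (Fin n ⊕ Fin m) A :=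
  F.eval₂ (MvPolynomial.rename Sum.inl :
    MvPolynomial (Fin n) A →ₐ[A] MvPolynomial (Fin n ⊕ Fin m) A).toRingHom
    (MvPolynomial.X (Sum.inr i))

/-- The polynomial `F (x, Y)` over `K`; the coefficients in `A` are specialised by `s : A → K`. -/
noncomputable def specialise {A K : Type} [CommRing A] [Field K] {n : ℕ} (s : A →+* K)
    (x : Fin n → K) (F : Polynomial (MvPolynomial (Fin n) A)) : Polynomial K :=
  F.map (MvPolynomial.eval₂Hom s x)

/-- The generic fibre of the family over `Spec A` of projective varieties with the ideal `I` contains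
no rational curves, geometrically: over no field `L` containing `A` there is a nonconstant map from the
projective line to the fibre, that is, a nonconstant vector of polynomials at which the elements of
`I` vanish. -/
def NoRationalCurves {A σ : Type} [CommRing A] (I : Ideal (MvPolynomial σ A)) : Prop :=
  ¬ ∃ (L : Type) (_ : Field L) (_ : Algebra A L) (p : σ → Polynomial L),
    Function.Injective (algebraMap A L) ∧ (∀ F ∈ I, MvPolynomial.aeval p F = 0) ∧
    ∃ i j, p i * Polynomial.C ((p j).eval 1) ≠ p j * Polynomial.C ((p i).eval 1)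

section

variable {K : Type} [Field K] [NumberField K]

/-- `x` is a sum of `k` elements of `Γ` with coefficients in `K` of height at most `M`. -/
def IsSparse (Γ : Subgroup Kˣ) (k : ℕ) (M : ℝ) (x : K) : Prop :=
  ∃ (a : Fin k → K) (u : Fin k → Kˣ), (∀ r, mulHeight₁ (a r) ≤ M) ∧ (∀ r, u r ∈ Γ) ∧
    x = ∑ r, a r * (u r : K)

/-- After scaling, the polynomial `F` is `v`-adically close to a separable and split polynomial `E`
of degree `q` with coefficients of height at most `M`: there are `a, z ∈ Γ` of height at most
`M h ^ B` such that the coefficients of `a F (z Y) - E (Y)` of index at most `q` are at most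
`M h ^ (-δ)` at `v`.  See `near_of_close` for the main example. -/
def IsNearSplit (Γ : Subgroup Kˣ) (v : Place K) (B δ M h : ℝ) (q : ℕ) (F : Polynomial K) : Prop :=
  ∃ (a z : Kˣ) (E : Polynomial K), a ∈ Γ ∧ z ∈ Γ ∧ E.natDegree = q ∧ E.Separable ∧ E.Splits ∧
    (∀ j, mulHeight₁ (E.coeff j) ≤ M) ∧ mulHeight₁ (a : K) ≤ M * h ^ B ∧
    mulHeight₁ (z : K) ≤ M * h ^ B ∧
    ∀ j ≤ q, absv v ((a : K) * (z : K) ^ j * F.coeff j - E.coeff j) ≤ M * h ^ (-δ)

end

lemma absv_eq {K : Type} [Field K] [NumberField K] (v : Place K) :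
    absv v = Pool.Agent.W180.OP.av v := by
  cases v with
  | inl w => rfl
  | inr w => rfl

lemma near_iff {K : Type} [Field K] [NumberField K] (Γ : Subgroup Kˣ) (v : Place K)
    (B δ M h : ℝ) (q : ℕ) (F : Polynomial K) :
    IsNearSplit Γ v B δ M h q F ↔ Pool.Agent.Run7.h28.BV.Near Γ v B δ M h q F := by
  unfold IsNearSplit Pool.Agent.Run7.h28.BV.Near
  rw [absv_eq]

/-- The main example of polynomials which are near a split polynomial: if the point `x` is
`v`-adically close to a point `c` with coordinates of height at most `M` at which `F (c, Y)` has full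
degree and is separable and split over `K`, then `F (x, Y)` is near a split polynomial, with `M`
replaced by `(C M) ^ C`, where `C` depends only on `F` and `K`. -/
theorem near_of_close {A : Type} [CommRing A] {n : ℕ} (F : Polynomial (MvPolynomial (Fin n) A))
    (K : Type) [Field K] [NumberField K] : ∃ C : ℝ, 1 ≤ C ∧
      ∀ (Γ : Subgroup Kˣ) (v : Place K) (B δ M h : ℝ) (s : A →+* K) (x c : Fin n → K), 0 ≤ B →
        0 ≤ δ → 1 ≤ M → 1 ≤ h → (∀ j e, mulHeight₁ (s ((F.coeff j).coeff e)) ≤ M) →
        (∀ l, mulHeight₁ (c l) ≤ M) → (∀ l, absv v (x l - c l) ≤ M * h ^ (-δ)) →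
        (specialise s c F).natDegree = F.natDegree → (specialise s c F).Separable →
        (specialise s c F).Splits →
        IsNearSplit Γ v B δ ((C * M) ^ C) h F.natDegree (specialise s x F) := by
  obtain ⟨C, hC, h⟩ := Pool.Agent.Run7.h28.BV.near_of_close F K
  refine ⟨C, hC, fun Γ v B δ M h' s x c h1 h2 h3 h4 h5 h6 h7 h8 h9 h10 => ?_⟩
  rw [near_iff]
  rw [absv_eq] at h7
  exact h Γ v B δ M h' s x c h1 h2 h3 h4 h5 h6 h7 h8 h9 h10

/-- Let `A` be an integral domain which is a finitely generated `ℚ`-algebra with generators `τ`,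
`n, m, k` natural numbers, `B` and `δ > 0` real numbers.

Let `X` be a family over `Spec A` of projective schemes with the homogeneous coordinates
`x_1, …, x_n`, `y_1, …, y_m`, given by forms `G` over `A`, such that each `y_i` satisfies an equation
`F_i (x, y_i) = 0` on `X`, where `F_i` is monic in `y_i`, and assume that the geometric generic fibre
contains no rational curves.  Then there is ONE `a ≠ 0` in `A` with the following property.

For every number field `K`, every finitely generated subgroup `Γ` of `Kˣ` and every place `v` of `K`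
there is a constant `C` such that for all `M ≥ 1`, all homomorphisms `s : A → K` with
`H (s (τ_i)) ≤ M` and `s (a) ≠ 0` and all points `P = (x : y)` of `X_s (K)` for which
* each `x_l` is a sum of `k` elements of `Γ` with coefficients in `K` of height at most `M`,
* `H (x_l) ≤ M H (x) ^ B`, where `H (x)` is the height of the point `x` of `ℙ^(n-1)`,
* the polynomials `F_i (x, Y)` are, after scaling by elements of `Γ`, `v`-adically at distance at most
  `M H (x) ^ (-δ)` from separable split polynomials over `K` with coefficients of height at most `M`,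
one has `H (x) ≤ (C M) ^ C`. -/
theorem result {A : Type} [CommRing A] [IsDomain A] [Algebra ℚ A] {p : ℕ} (τ : Fin p → A)
    (hτ : Algebra.adjoin ℚ (Set.range τ) = ⊤) (n m g k : ℕ) (B δ : ℝ) (hδ : 0 < δ)
    (G : Fin g → MvPolynomial (Fin n ⊕ Fin m) A) (hG : ∀ j, ∃ e, (G j).IsHomogeneous e)
    (F : Fin m → Polynomial (MvPolynomial (Fin n) A)) (hFm : ∀ i, (F i).Monic)
    (hFG : ∀ i, eqn (F i) i ∈ Ideal.span (Set.range G))
    (hcurve : NoRationalCurves (Ideal.span (Set.range G))) :
    ∃ a : A, a ≠ 0 ∧
      ∀ (K : Type) [Field K] [NumberField K] (Γ : Subgroup Kˣ), Γ.FG → ∀ v : Place K,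
      ∃ C : ℝ, 1 ≤ C ∧ ∀ (M : ℝ) (s : A →+* K) (x : Fin n → K) (y : Fin m → K), 1 ≤ M →
        (∀ i, mulHeight₁ (s (τ i)) ≤ M) → s a ≠ 0 →
        x ≠ 0 → (∀ j, MvPolynomial.eval₂ s (Sum.elim x y) (G j) = 0) →
        (∀ l, IsSparse Γ k M (x l)) →
        (∀ l, mulHeight₁ (x l) ≤ M * mulHeight x ^ B) →
        (∀ i, IsNearSplit Γ v B δ M (mulHeight x) (F i).natDegree (specialise s x (F i))) →
        mulHeight x ≤ (C * M) ^ C := by
  classical
  obtain ⟨𝒬, h1, h2, h⟩ := Pool.Agent.Run7.h28.BV.specialP τ hτ n m k B δ hδ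
    (Ideal.span (Set.range G)) ⟨g, G, hG, rfl⟩ F hFm hFG
  have hQ : ∀ Q ∈ 𝒬, ∃ a : A, a ≠ 0 ∧ MvPolynomial.C a ∈ Q := by
    intro Q hQ
    obtain ⟨-, -, hIQ, L, i1, i2, c, hc1, hc2, hc3⟩ := h2 Q hQ
    by_contra hcon
    push Not at hcon
    refine hcurve ⟨L, i1, i2, c, ?_, fun P hP => hc1 P (hIQ hP), hc3⟩
    rw [injective_iff_map_eq_zero]
    intro a ha
    by_contra ha0
    refine hc2 (MvPolynomial.C a) ⟨0, MvPolynomial.isHomogeneous_C _ a⟩ (hcon a ha0) ?_
    rw [MvPolynomial.aeval_C, ha]
  choose! α hα1 hα2 using hQ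
  refine ⟨∏ Q ∈ h1.toFinset, α Q, Finset.prod_ne_zero_iff.2 fun Q hQ =>
    hα1 Q (h1.mem_toFinset.1 hQ), fun K _ _ Γ hΓ v => ?_⟩
  obtain ⟨C, hC, hb⟩ := h K Γ hΓ v
  refine ⟨C, hC, fun M s x y a1 a2 a3 a4 a5 a6 a7 a8 => ?_⟩
  have h3 := hb M s x y a1 a2 a4 (by
    intro P hP
    have h9 : Ideal.span (Set.range G) ≤
        RingHom.ker (MvPolynomial.eval₂Hom s (Sum.elim x y)) := by
      rw [Ideal.span_le]
      rintro _ ⟨j, rfl⟩
      exact a5 j
    exact h9 hP) a6 a7 fun i => (near_iff _ _ _ _ _ _ _ _).1 (a8 i)
  rcases h3 with ⟨Q, hQ, h4⟩ | h4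
  · exfalso
    apply a3
    rw [map_prod]
    refine Finset.prod_eq_zero (h1.mem_toFinset.2 hQ) ?_
    have h5 := h4 _ (hα2 Q hQ)
    rw [MvPolynomial.eval₂_C] at h5
    exact h5
  · exact h4

end Pool.Agent.Results.MP_c7af3c_ag.SpecialisationsWithoutCurves
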